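import Pool.Agent.W424.FR.Defs
import Pool.Agent.W462.DPL.B

/-!
FR-RD: the deterministic part for the exploration path in a rectangle.
-/

set_option autoImplicit false

namespace Pool.Agent.W388.FR

open H974 H12S Finset H389NS H984P H984N MeasureTheory Filter Topology
open Pool.Agent.W92.DP Pool.Agent.W424.OD Pool.Agent.W424.FR
open Pool.Agent.W462.DPL (ctr pl_close' idx_le step near_box box_near dom_box sizes)

/-- The node `k` is on the curve at the time `k / N`. -/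
theorem pl_node {N : ℕ} (hN : 0 < N) (p : ℕ → ℂ) {k : ℕ} (hk : k ≤ N) (s : unitInterval)
    (hs : (s : ℝ) * N = k) : pl N p s = p k := by
  rcases hk.lt_or_eq with h | h
  · rw [pl_seg h hs.ge (by linarith), hs]
    simp
  · have hN' : (0 : ℝ) < N := by exact_mod_cast hN
    have h1 : s = 1 := by
      apply Subtype.ext
      rw [h] at hs
      exact mul_right_cancel₀ hN'.ne' (hs.trans (one_mul _).symm)
    rw [h1, pl_one, h]

/-- The position of a vertex. -/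
noncomputable def qv (δ : ℝ) (v : Vtx) : ℂ := pv δ v + (δ : ℂ) * Complex.I

theorem qv_re (δ : ℝ) (v : Vtx) : (qv δ v).re = δ * v.1 := by
  simp [qv, pv]

theorem qv_im (δ : ℝ) (v : Vtx) : (qv δ v).im = δ * v.2 + δ := by
  simp [qv, pv]

theorem qv_pos {δ : ℝ} (hδ : 0 ≤ δ) {v : Vtx} {σ : St} {a : ℝ} (h1 : |(v.1 : ℝ) - σ.1.1| ≤ a)
    (h2 : |(v.2 : ℝ) - σ.1.2| ≤ a) : dist (qv δ v) (pos δ σ) ≤ δ * (2 * a + 1 / 2) := by
  have q1 := abs_le.1 (ML.qx_le σ.2)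
  have q2 := abs_le.1 (ML.qy_le σ.2)
  have a1 := abs_le.1 h1
  have a2 := abs_le.1 h2
  have k1 : |(qv δ v).re - (pos δ σ).re| ≤ δ * (a + 1 / 4) := by
    rw [qv_re, ML.pos_re, ← mul_sub, abs_mul, abs_of_nonneg hδ]
    refine mul_le_mul_of_nonneg_left ?_ hδ
    rw [abs_le]
    constructor <;> linarith [q1.1, q1.2, a1.1, a1.2]
  have k2 : |(qv δ v).im - (pos δ σ).im| ≤ δ * (a + 1 / 4) := by
    rw [qv_im, ML.pos_im]
    have e : δ * (v.2 : ℝ) + δ - δ * ((σ.1.2 : ℝ) + 1 + ML.qy σ.2) =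
        δ * ((v.2 : ℝ) - σ.1.2 - ML.qy σ.2) := by ring
    rw [e, abs_mul, abs_of_nonneg hδ]
    refine mul_le_mul_of_nonneg_left ?_ hδ
    rw [abs_le]
    constructor <;> linarith [q2.1, q2.2, a2.1, a2.2]
  refine (ML.dist_le_of k1 k2).trans ?_
  apply le_of_eq
  ring

/-- position near `z` implies vertex near the centre -/
theorem near_v {δ r : ℝ} (hδ : 0 < δ) {z : ℂ} {v : Vtx} (h : dist (qv δ v) z ≤ r + δ) :
    v ∈ Bd (ctr δ z) (⌈r / δ⌉₊ + 3) := by
  have h1 := (ML.le_dist_re (qv δ v) z).trans h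
  have h2 := (ML.le_dist_im (qv δ v) z).trans h
  rw [qv_re] at h1
  rw [qv_im] at h2
  have a1 := Int.floor_le (z.re / δ)
  have a2 := Int.lt_floor_add_one (z.re / δ)
  have b1 := Int.floor_le (z.im / δ)
  have b2 := Int.lt_floor_add_one (z.im / δ)
  have hρ : r / δ ≤ (⌈r / δ⌉₊ : ℝ) := Nat.le_ceil _
  set ρ : ℕ := ⌈r / δ⌉₊ with hρd
  set x : ℤ := v.1 with hx
  set y : ℤ := v.2 with hy
  set c1 : ℤ := ⌊z.re / δ⌋ with hc1
  set c2 : ℤ := ⌊z.im / δ⌋ with hc2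
  have e1 : δ * (z.re / δ) = z.re := by field_simp
  have e2 : δ * (z.im / δ) = z.im := by field_simp
  have e3 : δ * (r / δ) = r := by field_simp
  have k1 : |(x : ℝ) - z.re / δ| ≤ r / δ + 1 := by
    have : δ * |(x : ℝ) - z.re / δ| ≤ δ * (r / δ + 1) := by
      have e4 : δ * |(x : ℝ) - z.re / δ| = |δ * (x : ℝ) - z.re| := by
        rw [← e1, ← mul_sub, abs_mul, abs_of_pos hδ, e1]
      rw [e4, mul_add δ (r / δ), e3]
      linarith
    exact le_of_mul_le_mul_left this hδ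
  have k2 : |((y : ℝ) + 1) - z.im / δ| ≤ r / δ + 1 := by
    have : δ * |((y : ℝ) + 1) - z.im / δ| ≤ δ * (r / δ + 1) := by
      have e4 : δ * |((y : ℝ) + 1) - z.im / δ| = |δ * (y : ℝ) + δ - z.im| := by
        have e5 : δ * (y : ℝ) + δ - z.im = δ * (((y : ℝ) + 1) - z.im / δ) := by
          rw [mul_sub, e2]
          ring
        rw [e5, abs_mul, abs_of_pos hδ]
      rw [e4, mul_add δ (r / δ), e3]
      linarith
    exact le_of_mul_le_mul_left this hδ
  rw [abs_le] at k1 k2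
  have g1 : (c1 : ℝ) - (ρ + 3) ≤ x := by linarith [k1.1, k1.2]
  have g2 : (x : ℝ) ≤ c1 + (ρ + 3) := by linarith [k1.1, k1.2]
  have g3 : ((c2 : ℝ) - 1) - (ρ + 3) ≤ y := by linarith [k2.1, k2.2]
  have g4 : (y : ℝ) ≤ ((c2 : ℝ) - 1) + (ρ + 3) := by linarith [k2.1, k2.2]
  refine ⟨⟨?_, ?_⟩, ?_, ?_⟩
  · show c1 - (ρ + 3 : ℕ) ≤ x
    push_cast
    exact_mod_cast g1
  · show x ≤ c1 + (ρ + 3 : ℕ)
    push_cast
    exact_mod_cast g2
  · show (c2 - 1) - (ρ + 3 : ℕ) ≤ y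
    push_cast
    exact_mod_cast g3
  · show y ≤ (c2 - 1) + (ρ + 3 : ℕ)
    push_cast
    exact_mod_cast g4

/-- vertex in a box implies position near `z` -/
theorem far_v {δ : ℝ} (hδ : 0 < δ) {z : ℂ} {v : Vtx} {k : ℕ} (h : v ∈ Bd (ctr δ z) k) :
    dist (qv δ v) z ≤ 2 * δ * k + 3 * δ := by
  have h1 : dist (pos δ (v, Q4.ne)) z ≤ 2 * δ * k + 5 / 2 * δ := box_near hδ (σ := (v, Q4.ne)) h
  have h2 : dist (qv δ v) (pos δ (v, Q4.ne)) ≤ δ * (2 * 0 + 1 / 2) :=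
    qv_pos hδ.le (by simp) (by simp)
  have h3 := dist_triangle (qv δ v) (pos δ (v, Q4.ne)) z
  linarith

theorem t_RD : Pool.Agent.W424.FR.S_RD := by
  intro hF hL R z r d δ ζ hδ hδr hd hζ hball hok F hFe hE
  obtain ⟨hL1, hL2⟩ := hL δ hδ
  obtain ⟨t, ⟨s, hst, h1⟩, h2, g, hg0, hg1, hg⟩ := hE
  have hr : 0 < r := hδ.trans_le hδr
  have hd0 : 0 < d := by linarith
  set N : ℕ := (R.dm δ).len F with hN
  have hcur : R.curve δ F = pl N (fun k => pos δ ((R.dm δ).walk F k)) := rfl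
  rw [hcur] at h1 h2 hg
  rcases Nat.eq_zero_or_pos N with h0 | hNpos
  · exfalso
    rw [h0, pl_apply'] at h1 h2
    simp only [Finset.range_zero, Finset.sum_empty, add_zero] at h1 h2
    linarith
  have hstp : ∀ k < N, dist (pos δ ((R.dm δ).walk F k)) (pos δ ((R.dm δ).walk F (k + 1))) ≤
      δ / 2 := fun k _ => step hδ.le F k
  obtain ⟨m, hmN, ⟨m1, m2⟩, hm⟩ := pl_close' hNpos hstp s
  obtain ⟨j, hjN, ⟨j1, j2⟩, hj⟩ := pl_close' hNpos hstp t
  have hst' : s ≠ t := by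
    intro h
    rw [h] at h1
    linarith
  have hmj : m ≤ j := idx_le hNpos hst hst' m1 j2
  have hN' : (0 : ℝ) < N := by exact_mod_cast hNpos
  -- the nodes before `j` are on the curve before the time `t`
  have hnode : ∀ k ≤ j, ∀ u, ζ < dist (g u) (pos δ ((R.dm δ).walk F k)) := by
    intro k hk u
    have hkN : k ≤ N := by omega
    have hkN' : (k : ℝ) ≤ N := by exact_mod_cast hkN
    have hkj' : (k : ℝ) ≤ j := by exact_mod_cast hk
    have hk1 : ((k : ℝ) / N) ∈ Set.Icc (0 : ℝ) 1 :=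
      ⟨by positivity, by rw [div_le_one hN']; exact hkN'⟩
    have hτN : (((⟨(k : ℝ) / N, hk1⟩ : unitInterval)) : ℝ) * N = k := by
      show (k : ℝ) / N * N = k
      field_simp
    have hτt : (⟨(k : ℝ) / N, hk1⟩ : unitInterval) ≤ t := by
      show (k : ℝ) / N ≤ (t : ℝ)
      rw [div_le_iff₀ hN']
      linarith
    have h3 := hg _ hτt u
    rw [pl_node hNpos _ hkN _ hτN] at h3
    exact h3
  set f := pl N (fun k => pos δ ((R.dm δ).walk F k)) with hf
  -- positions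
  have pm : dist (pos δ ((R.dm δ).walk F m)) z ≤ r + δ / 2 := by
    have := dist_triangle_left (pos δ ((R.dm δ).walk F m)) z (f s)
    linarith
  have pj : d / 2 - δ / 2 < dist (pos δ ((R.dm δ).walk F j)) z := by
    have := dist_triangle (f t) (pos δ ((R.dm δ).walk F j)) z
    linarith
  -- the shifted path
  let g' : C(unitInterval, ℂ) := ⟨fun u => g u - (δ : ℂ) * Complex.I, by fun_prop⟩
  have hg' : ∀ u, g' u = g u - (δ : ℂ) * Complex.I := fun _ => rfl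
  have hsh : ∀ (v : Vtx) (u : unitInterval), dist (qv δ v) (g u) = dist (pv δ v) (g' u) := by
    intro v u
    rw [hg', dist_eq_norm, dist_eq_norm]
    congr 1
    unfold qv
    ring
  have hB : ∀ u w, dist (pv δ w) (g' u) ≤ 2 * δ → w ∉ Nr (R.dm δ) F 0 j := by
    rintro u w hw ⟨k, _, hkj, hx, hy⟩
    have h3 := hnode k hkj u
    rw [← hsh] at hw
    have hx' : |(w.1 : ℝ) - ((R.dm δ).walk F k).1.1| ≤ 2 := by exact_mod_cast hx
    have hy' : |(w.2 : ℝ) - ((R.dm δ).walk F k).1.2| ≤ 2 := by exact_mod_cast hy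
    have h4 := qv_pos hδ.le hx' hy'
    have h5 := dist_triangle_left (g u) (pos δ ((R.dm δ).walk F k)) (qv δ w)
    linarith
  have hreach := hL2 (Nr (R.dm δ) F 0 j) g' hB
  have hx0 : dist (qv δ (rd δ (g' 0))) (g 0) ≤ δ := by
    rw [hsh]
    exact hL1 _
  have hy0 : dist (qv δ (rd δ (g' 1))) (g 1) ≤ δ := by
    rw [hsh]
    exact hL1 _
  have hk : (⌊d / (8 * δ)⌋₊ : ℝ) ≤ d / (8 * δ) := Nat.floor_le (by positivity)
  have h6 : 2 * δ * (⌊d / (8 * δ)⌋₊ : ℝ) ≤ d / 4 := by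
    calc 2 * δ * (⌊d / (8 * δ)⌋₊ : ℝ) ≤ 2 * δ * (d / (8 * δ)) :=
          mul_le_mul_of_nonneg_left hk (by positivity)
      _ = d / 4 := by
          field_simp
          norm_num
  obtain ⟨s1, _, _, _⟩ := sizes hδ hδr hd
  obtain ⟨b1, b2, b3, b4⟩ := dom_box R hδ (by linarith) hball
  refine hF (R.dm δ) F hok hFe (ctr δ z) (⌈r / δ⌉₊ + 3) ⌊d / (8 * δ)⌋₊ s1 b1 b2 b3 b4 0 m j
    (Nat.zero_le _) hmj hjN.le ?_ (near_box hδ pm) ?_ (rd δ (g' 0)) (rd δ (g' 1)) ?_ ?_ hreach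
  · rintro ⟨_, _, h⟩
    have h' : (R.dm δ).h ≤ (ctr δ z).2 + (⌊d / (8 * δ)⌋₊ : ℕ) := h
    omega
  · intro hin
    have h5 := box_near hδ hin
    linarith
  · apply near_v hδ
    have := dist_triangle (qv δ (rd δ (g' 0))) (g 0) z
    linarith
  · intro hin
    have h5 := far_v hδ hin
    have := dist_triangle_left (g 1) z (qv δ (rd δ (g' 1)))
    linarith

end Pool.Agent.W388.FR
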